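import Pool.Agent.Helper59.AN.Goals

noncomputable section

namespace AN.PkCOD

open Pool.Agent.Helper97.Ku NU AN

variable {L : Type} [CompleteBooleanAlgebra L]

theorem boT {P : Prop} (h : P) : bo P = (⊤ : L) := by simp [bo, h]

theorem boF {P : Prop} (h : ¬ P) : bo P = (⊥ : L) := by simp [bo, h]

theorem cc {g u v : L} (h : g ⊓ u = g ⊓ v) : g ⊓ uᶜ = g ⊓ vᶜ := by
  have key : ∀ u v : L, g ⊓ u = g ⊓ v → g ⊓ uᶜ ≤ g ⊓ vᶜ := by
    intro u v h
    refine le_inf inf_le_left ?_
    rw [le_compl_iff_disjoint_right, disjoint_iff_inf_le]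
    have : g ⊓ uᶜ ⊓ v ≤ uᶜ ⊓ (g ⊓ v) := by
      refine le_inf (inf_le_left.trans inf_le_right) (le_inf (inf_le_left.trans inf_le_left) inf_le_right)
    refine this.trans ?_
    rw [← h]
    have : uᶜ ⊓ (g ⊓ u) ≤ uᶜ ⊓ u := inf_le_inf_left _ inf_le_right
    exact this.trans (by simp)
  exact le_antisymm (key u v h) (key v u h.symm)

theorem iff_top (a : L) : iffV (⊤ : L) a = a := by simp [iffV]

theorem iff_bot (a : L) : iffV (⊥ : L) a = aᶜ := by simp [iffV]

theorem agr_mem {n j : ℕ} (hj : j < n) (T : Finset ℕ) (y : ℕ → L) :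
    agr n T y ⊓ bo (j ∈ T) = agr n T y ⊓ y j := by
  have h : agr n T y ≤ iffV (bo (j ∈ T)) (y j) := (iInf_le _ j).trans (iInf_le _ hj)
  by_cases h1 : j ∈ T
  · rw [boT h1] at h ⊢
    rw [iff_top] at h
    rw [inf_top_eq, inf_eq_left.2 h]
  · rw [boF h1] at h ⊢
    rw [iff_bot] at h
    rw [inf_bot_eq]
    symm
    rw [← le_bot_iff]
    exact (inf_le_inf_right _ h).trans (by simp)

theorem cover (n : ℕ) (y : ℕ → L) : ⨆ T : Finset ℕ, ⨆ _ : LastN T n, agr n T y = ⊤ := by
  classical
  induction n with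
  | zero =>
    rw [← top_le_iff]
    refine le_trans ?_ (le_iSup _ ({0} : Finset ℕ))
    refine le_trans ?_ (le_iSup _ (⟨by simp, by simp⟩ : LastN {0} 0))
    simp [agr]
  | succ n ih =>
    rw [← top_le_iff, ← ih]
    refine iSup_le fun T => iSup_le fun hT => ?_
    have key : ∀ e : Prop, agr n T y ⊓ iffV (bo e) (y n) ≤
        ⨆ T : Finset ℕ, ⨆ _ : LastN T (n + 1), agr (n + 1) T y := by
      intro e
      let T' : Finset ℕ := insert (n + 1) ((T.erase n).filter (fun m => m < n) ∪ (if e then {n} else ∅))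
      have m1 : ∀ m < n, (m ∈ T' ↔ m ∈ T) := by
        intro m hm
        have e1 : m ≠ n + 1 := by omega
        have e2 : m ≠ n := by omega
        by_cases he : e <;> simp [T', he, e1, e2, hm]
      have m2 : n ∈ T' ↔ e := by
        by_cases he : e <;> simp [T', he]
      have m3 : LastN T' (n + 1) := by
        refine ⟨by simp [T'], ?_⟩
        intro m hm
        by_cases he : e <;> simp [T', he] at hm <;> omega
      refine le_trans ?_ (le_iSup _ T')
      refine le_trans ?_ (le_iSup _ m3)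
      refine le_iInf fun m => le_iInf fun hm => ?_
      rcases Nat.lt_succ_iff_lt_or_eq.1 hm with h | h
      · refine inf_le_left.trans ((iInf_le _ m).trans ((iInf_le _ h).trans ?_))
        rw [m1 m h]
      · subst h
        rw [m2]
        exact inf_le_right
    have h2 : agr n T y ≤ (agr n T y ⊓ iffV (bo True) (y n)) ⊔ (agr n T y ⊓ iffV (bo False) (y n)) := by
      rw [boT trivial, boF not_false, iff_top, iff_bot, ← inf_sup_left, sup_compl_eq_top, inf_top_eq]
    exact h2.trans (sup_le (key True) (key False))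

open Classical in
/-- the initial segment of `A` -/
def S0 (A : Set ℕ) (n : ℕ) : Finset ℕ := insert n ((Finset.range n).filter (fun m => m ∈ A))

theorem S0_last (A : Set ℕ) (n : ℕ) : LastN (S0 A n) n := by
  refine ⟨by simp [S0], ?_⟩
  intro m hm
  simp [S0] at hm
  omega

theorem S0_mem (A : Set ℕ) (n m : ℕ) (h : m < n) : m ∈ S0 A n ↔ m ∈ A := by
  have e1 : m ≠ n := by omega
  simp [S0, e1, h]

theorem agr_ch_le (n : ℕ) (S : Finset ℕ) (A : Set ℕ) :
    (agr n S (ch A) : L) ≤ bo (∀ m < n, (m ∈ S ↔ m ∈ A)) := by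
  by_cases h : ∀ m < n, (m ∈ S ↔ m ∈ A)
  · rw [boT h]; exact le_top
  · push Not at h
    obtain ⟨m, hm, h⟩ := h
    refine (iInf_le _ m).trans ((iInf_le _ hm).trans ?_)
    have : iffV (bo (m ∈ S)) (ch A m) = (⊥ : L) := by
      unfold ch
      rcases h with ⟨h1, h2⟩ | ⟨h1, h2⟩
      · rw [boT h1, boF h2, iff_top]
      · rw [boF h1, boT h2, iff_bot]; simp
    rw [this]
    exact bot_le

theorem agr_ch_top (n : ℕ) (S : Finset ℕ) (A : Set ℕ) (h : ∀ m < n, (m ∈ S ↔ m ∈ A)) :
    (agr n S (ch A) : L) = ⊤ := by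
  rw [← top_le_iff]
  refine le_iInf fun m => le_iInf fun hm => ?_
  unfold ch
  rw [h m hm]
  simp [iffV]

theorem leL (γ : ℕ → Finset ℕ → Finset ℕ → L) (k : ℕ) (A : Set ℕ) (y : ℕ → L) (x : L)
    (h : ∀ n S T, LastN S n → LastN T n → (∀ m < n, (m ∈ S ↔ m ∈ A)) →
      agr n T y ⊓ γ k S T ≤ x) : Ov γ k (ch A) y ≤ x := by
  refine iSup_le fun n => iSup_le fun S => iSup_le fun T => ?_
  by_cases h1 : LastN S n ∧ LastN T n
  · by_cases h2 : ∀ m < n, (m ∈ S ↔ m ∈ A)
    · refine le_trans ?_ (h n S T h1.1 h1.2 h2)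
      exact le_inf (inf_le_right.trans (inf_le_right.trans inf_le_right))
        (inf_le_right.trans inf_le_left)
    · have := agr_ch_le (L := L) n S A
      rw [boF h2] at this
      exact (inf_le_right.trans (inf_le_right.trans (inf_le_left.trans this))).trans bot_le
  · rw [boF h1, bot_inf_eq]
    exact bot_le

theorem geL (γ : ℕ → Finset ℕ → Finset ℕ → L) (k : ℕ) (A : Set ℕ) (y : ℕ → L) (x : L) (n : ℕ)
    (h : ∀ T, LastN T n → agr n T y ⊓ x ≤ γ k (S0 A n) T) : x ≤ Ov γ k (ch A) y := by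
  have h1 : x = ⨆ T : Finset ℕ, ⨆ _ : LastN T n, (x ⊓ agr n T y) := by
    have : x = x ⊓ ⨆ T : Finset ℕ, ⨆ _ : LastN T n, agr n T y := by rw [cover, inf_top_eq]
    rw [inf_iSup_eq] at this
    simp only [inf_iSup_eq] at this
    exact this
  rw [h1]
  refine iSup_le fun T => iSup_le fun hT => ?_
  refine le_trans ?_ (le_iSup _ n)
  refine le_trans ?_ (le_iSup _ (S0 A n))
  refine le_trans ?_ (le_iSup _ T)
  rw [boT ⟨S0_last A n, hT⟩, top_inf_eq, agr_ch_top n (S0 A n) A (fun m hm => S0_mem A n m hm),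
    top_inf_eq]
  refine le_inf ?_ inf_le_right
  rw [inf_comm]
  exact h T hT

/-- the codes of a move are below `n` -/
def bd (s : List ℕ) (m n : ℕ) : Prop :=
  2 * Encodable.encode s < n ∧ Encodable.encode s < n ∧ Encodable.encode (m :: s) < n ∧
    ∀ j ∈ Denumerable.ofNat (Finset ℕ) m, j < n

theorem bd_ex (s : List ℕ) (m : ℕ) : ∃ n, bd s m n := by
  refine ⟨2 * Encodable.encode s + Encodable.encode s + Encodable.encode (m :: s) +
    (Denumerable.ofNat (Finset ℕ) m).sup id + 1, ?_, ?_, ?_, ?_⟩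
  · omega
  · omega
  · omega
  · intro j hj
    have := Finset.le_sup (f := id) hj
    simp only [id] at this
    omega

open Classical in
def MV (a : List ℕ → Finset ℕ → L) (S T : Finset ℕ) (s : List ℕ) (m : ℕ) : L :=
  if 2 * Encodable.encode s ∈ S then bo (Encodable.encode (m :: s) ∈ T)
  else if CylS (Denumerable.ofNat (Finset ℕ) m) (↑S) then a s (Denumerable.ofNat (Finset ℕ) m) else ⊥

theorem mv (a : List ℕ → Finset ℕ → L) (A : Set ℕ) (y : ℕ → L) (n : ℕ) (S T : Finset ℕ)
    (s : List ℕ) (m : ℕ) (hS : ∀ m < n, (m ∈ S ↔ m ∈ A)) (hb : bd s m n) :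
    agr n T y ⊓ MV a S T s m = agr n T y ⊓ Wv a A y s m := by
  unfold MV Wv
  have h1 := hS _ hb.1
  have h2 : CylS (Denumerable.ofNat (Finset ℕ) m) (↑S) ↔ CylS (Denumerable.ofNat (Finset ℕ) m) A := by
    unfold CylS
    constructor
    · rintro ⟨k, hk, hk'⟩
      refine ⟨k, hk, fun j hj => ?_⟩
      rw [← hk' j hj, ← hS j (hj.trans (hb.2.2.2 k hk.1))]
      simp
    · rintro ⟨k, hk, hk'⟩
      refine ⟨k, hk, fun j hj => ?_⟩
      rw [← hk' j hj, ← hS j (hj.trans (hb.2.2.2 k hk.1))]
      simp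
  by_cases h3 : 2 * Encodable.encode s ∈ A
  · rw [if_pos h3, if_pos (h1.2 h3)]
    exact agr_mem hb.2.2.1 T y
  · rw [if_neg h3, if_neg (fun h => h3 (h1.1 h))]
    by_cases h4 : CylS (Denumerable.ofNat (Finset ℕ) m) A
    · rw [if_pos h4, if_pos (h2.2 h4)]
    · rw [if_neg h4, if_neg (fun h => h4 (h2.1 h))]

open Classical in
def gam (a : List ℕ → Finset ℕ → L) : ℕ → Finset ℕ → Finset ℕ → L
  | 0, S, T => if Encodable.encode ([] : List ℕ) < S.sup id then
      bo (Encodable.encode ([] : List ℕ) ∈ T) else ⊥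
  | k + 1, S, T => match Denumerable.ofNat ((List ℕ × ℕ) ⊕ List ℕ) k with
    | .inl (s, m) => if bd s m (S.sup id) then (bo (Encodable.encode s ∈ T) ⊓ MV a S T s m)ᶜ else ⊥
    | .inr s => (if Encodable.encode s < S.sup id then bo (Encodable.encode s ∈ T) else ⊥) ⊔
        ⨆ m, if bd s m (S.sup id) then MV a S T s m else ⊥

theorem sup_last {S : Finset ℕ} {n : ℕ} (h : LastN S n) : S.sup id = n := by
  apply le_antisymm
  · exact Finset.sup_le fun m hm => h.2 m hm
  · exact Finset.le_sup (f := id) h.1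

theorem cod : G_COD := by
  intro L _ a
  refine ⟨gam a, fun s m => Encodable.encode (Sum.inl (s, m) : (List ℕ × ℕ) ⊕ List ℕ) + 1,
    fun s => Encodable.encode (Sum.inr s : (List ℕ × ℕ) ⊕ List ℕ) + 1, ?_⟩
  intro A y
  refine ⟨?_, ?_, ?_, ?_⟩
  · apply le_antisymm
    · refine leL _ _ _ _ _ fun n S T hS hT hA => ?_
      simp only [gam]
      rw [sup_last hS]
      split_ifs with h
      · rw [agr_mem h]; exact inf_le_right
      · rw [inf_bot_eq]; exact bot_le
    · refine geL _ _ _ _ _ (Encodable.encode ([] : List ℕ) + 1) fun T hT => ?_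
      simp only [gam]
      rw [sup_last (S0_last A _), if_pos (Nat.lt_succ_self _), ← agr_mem (Nat.lt_succ_self _)]
      exact inf_le_right
  · intro s m
    apply le_antisymm
    · refine leL _ _ _ _ _ fun n S T hS hT hA => ?_
      simp only [gam, Denumerable.ofNat_encode]
      rw [sup_last hS]
      split_ifs with h
      · have e : agr n T y ⊓ (bo (Encodable.encode s ∈ T) ⊓ MV a S T s m) =
            agr n T y ⊓ (y (Encodable.encode s) ⊓ Wv a A y s m) := by
          rw [← inf_assoc, agr_mem h.2.1, inf_right_comm, mv a A y n S T s m hA h, inf_right_comm,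
            inf_assoc]
        rw [cc e]
        exact inf_le_right
      · rw [inf_bot_eq]; exact bot_le
    · obtain ⟨n, hn⟩ := bd_ex s m
      refine geL _ _ _ _ _ n fun T hT => ?_
      simp only [gam, Denumerable.ofNat_encode]
      rw [sup_last (S0_last A _), if_pos hn]
      have hA : ∀ m < n, (m ∈ S0 A n ↔ m ∈ A) := fun m hm => S0_mem A n m hm
      have e : agr n T y ⊓ (bo (Encodable.encode s ∈ T) ⊓ MV a (S0 A n) T s m) =
            agr n T y ⊓ (y (Encodable.encode s) ⊓ Wv a A y s m) := by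
        rw [← inf_assoc, agr_mem hn.2.1, inf_right_comm, mv a A y n _ T s m hA hn, inf_right_comm,
            inf_assoc]
      rw [← cc e]
      exact inf_le_right
  · intro s
    apply le_antisymm
    · refine leL _ _ _ _ _ fun n S T hS hT hA => ?_
      simp only [gam, Denumerable.ofNat_encode]
      rw [sup_last hS, inf_sup_left]
      refine sup_le_sup ?_ ?_
      · split_ifs with h
        · rw [agr_mem h]; exact inf_le_right
        · rw [inf_bot_eq]; exact bot_le
      · rw [inf_iSup_eq]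
        refine iSup_mono fun m => ?_
        split_ifs with h
        · rw [mv a A y n S T s m hA h]; exact inf_le_right
        · rw [inf_bot_eq]; exact bot_le
    · refine sup_le ?_ (iSup_le fun m => ?_)
      · refine geL _ _ _ _ _ (Encodable.encode s + 1) fun T hT => ?_
        simp only [gam, Denumerable.ofNat_encode]
        rw [sup_last (S0_last A _), if_pos (Nat.lt_succ_self _), ← agr_mem (Nat.lt_succ_self _)]
        exact inf_le_right.trans le_sup_left
      · obtain ⟨n, hn⟩ := bd_ex s m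
        refine geL _ _ _ _ _ n fun T hT => ?_
        simp only [gam, Denumerable.ofNat_encode]
        rw [sup_last (S0_last A _)]
        have hA : ∀ m < n, (m ∈ S0 A n ↔ m ∈ A) := fun m hm => S0_mem A n m hm
        rw [← mv a A y n _ T s m hA hn]
        refine inf_le_right.trans (le_trans ?_ le_sup_right)
        refine le_trans ?_ (le_iSup _ m)
        rw [if_pos hn]
  · intro k
    rcases k with _ | k
    · exact Or.inl rfl
    · right
      rcases h : Denumerable.ofNat ((List ℕ × ℕ) ⊕ List ℕ) k with ⟨s, m⟩ | s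
      · left
        refine ⟨s, m, ?_⟩
        show k + 1 = Encodable.encode (Sum.inl (s, m) : (List ℕ × ℕ) ⊕ List ℕ) + 1
        rw [← h, Denumerable.encode_ofNat]
      · right; left
        refine ⟨s, ?_⟩
        show k + 1 = Encodable.encode (Sum.inr s : (List ℕ × ℕ) ⊕ List ℕ) + 1
        rw [← h, Denumerable.encode_ofNat]

end AN.PkCOD
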